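import Pool.Agent.H94.G5T.M01

/-!
# AD Defs: charts of projective manifolds of dimension `d`, bivector forms

`X` is the cone (without `0`) over a smooth projective variety of dimension `d`, in `EN N = ℂ^(N+1)` with the Euclidean norm (`H14.PP.IsCone`).  The model space is `Vd d = Fin d → ℂ` with the
supremum norm.
-/

set_option autoImplicit false

open Topology Filter Metric

namespace Pool.Agent.AD

open Pool.Agent.H36.BP (EN wd)
open Pool.Agent.H14.PP (CurveAt Tan)

variable {N : ℕ}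

/-- the model space -/
abbrev Vd (d : ℕ) : Type := Fin d → ℂ

/-- A chart of the manifold whose cone is `X`: `σ` is a lift of the inverse of the chart, defined on the polydisc of radius `2`, `U` is an open cone, and `q` the chart, `d` holomorphic
functions on `U` which are invariant under scaling. -/
structure Chart (d : ℕ) (X : Set (EN N)) where
  /-- the parametrization -/
  σ : Vd d → EN N
  /-- the domain -/
  U : Set (EN N)
  /-- the coordinates -/
  q : EN N → Vd d
  isOpen_U : IsOpen U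
  smul_U : ∀ x ∈ U, ∀ c : ℂ, c ≠ 0 → c • x ∈ U
  σ_an : ∀ p ∈ ball (0 : Vd d) 2, AnalyticAt ℂ σ p
  q_an : ∀ x ∈ U, AnalyticAt ℂ q x
  q_smul : ∀ x ∈ U, ∀ c : ℂ, c ≠ 0 → q (c • x) = q x
  σ_mem : ∀ p ∈ ball (0 : Vd d) 2, σ p ∈ X ∧ σ p ∈ U ∧ q (σ p) = p
  surj : ∀ x ∈ X, x ∈ U → q x ∈ ball (0 : Vd d) 2 ∧ ∃ c : ℂ, c ≠ 0 ∧ x = c • σ (q x)

/-- `X` is smooth: there are charts -/
def Charts (d : ℕ) (X : Set (EN N)) : Prop := ∀ x ∈ X, ∃ χ : Chart d X, x ∈ χ.U ∧ χ.q x = 0

end Pool.Agent.AD
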